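import Pool.Agent.Hhelper97.WHTriv.Main

/-!
The origin stays the only critical point under small weighted homogeneous perturbations.
-/

set_option autoImplicit false
set_option linter.unusedSectionVars false

open Filter Topology Set MvPolynomial

namespace Pool.Agent.Hhelper97.WHTriv

variable {ι : Type} [Fintype ι]

theorem crit_stable [Nonempty ι] {f h : MvPolynomial ι ℂ} {ω : ι → ℕ} {d : ℕ}
    (hω : ∀ i, 1 ≤ ω i)
    (hd : ∀ i, ω i < d) (hf : f.IsWeightedHomogeneous ω d) (hh : h.IsWeightedHomogeneous ω d)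
    (hiso : ∀ p, (∀ i, eval p (pderiv i f) = 0) → p = 0) :
    ∃ ε > 0, ∀ t : ℂ, ‖t‖ < ε → ∀ p, (∀ i, eval p (pderiv i (f + C t * h)) = 0) → p = 0 := by
  classical
  obtain ⟨g, hg⟩ : ∃ g : (ι → ℂ) → ℝ, g = fun p => ∑ i, ‖eval p (pderiv i f)‖ := ⟨_, rfl⟩
  obtain ⟨g', hg'⟩ : ∃ g' : (ι → ℂ) → ℝ, g' = fun p => ∑ i, ‖eval p (pderiv i h)‖ := ⟨_, rfl⟩
  have hgc : Continuous g := by
    rw [hg]
    exact continuous_finsetSum _ (fun i _ => (contDiff_eval (pderiv i f)).continuous.norm)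
  have hgc' : Continuous g' := by
    rw [hg']
    exact continuous_finsetSum _ (fun i _ => (contDiff_eval (pderiv i h)).continuous.norm)
  have hcpt : IsCompact (Metric.sphere (0 : ι → ℂ) 1) := isCompact_sphere _ _
  have hnonempty : (Metric.sphere (0 : ι → ℂ) 1).Nonempty :=
    NormedSpace.sphere_nonempty.2 zero_le_one
  obtain ⟨u, hu, hmin⟩ := hcpt.exists_isMinOn hnonempty hgc.continuousOn
  obtain ⟨M, hM⟩ := hcpt.exists_bound_of_continuousOn hgc'.continuousOn
  have hgu : 0 < g u := by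
    have h1 : ∃ i, eval u (pderiv i f) ≠ 0 := by
      by_contra hcon
      push Not at hcon
      have := hiso u hcon
      rw [mem_sphere_zero_iff_norm, this, norm_zero] at hu
      exact zero_ne_one hu
    obtain ⟨i, hi⟩ := h1
    rw [hg]
    apply Finset.sum_pos'
    · intro j _
      positivity
    · exact ⟨i, Finset.mem_univ i, norm_pos_iff.2 hi⟩
  have hM0 : 0 ≤ M := (norm_nonneg _).trans (hM u hu)
  refine ⟨g u / (M + 1), by positivity, ?_⟩
  intro t ht p hp
  by_contra hp0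
  obtain ⟨ρ, hρ, v, hv, rfl⟩ := exists_scale hω hp0
  have hvs : v ∈ Metric.sphere (0 : ι → ℂ) 1 := mem_sphere_zero_iff_norm.2 hv
  have h1 : ∀ i, ‖eval v (pderiv i f)‖ ≤ ‖t‖ * ‖eval v (pderiv i h)‖ := by
    intro i
    have h2 := hp i
    rw [map_add, pderiv_C_mul, map_add, map_mul, eval_C, eval_pderiv_S hd hf,
      eval_pderiv_S hd hh] at h2
    have h3 : (ρ : ℂ) ^ (d - ω i) ≠ 0 := pow_ne_zero _ (Complex.ofReal_ne_zero.2 hρ.ne')
    have h4 : (ρ : ℂ) ^ (d - ω i) * (eval v (pderiv i f) + t * eval v (pderiv i h)) = 0 := by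
      linear_combination h2
    have h5 := (mul_eq_zero.1 h4).resolve_left h3
    have h6 : eval v (pderiv i f) = -(t * eval v (pderiv i h)) := by linear_combination h5
    rw [h6, norm_neg, norm_mul]
  have h2 : g v ≤ ‖t‖ * g' v := by
    rw [hg, hg']
    simp only
    rw [Finset.mul_sum]
    exact Finset.sum_le_sum (fun i _ => h1 i)
  have h3 : g u ≤ g v := hmin hvs
  have h4 : g' v ≤ M := (le_abs_self _).trans (hM v hvs)
  have h5 : ‖t‖ * g' v ≤ ‖t‖ * M := mul_le_mul_of_nonneg_left h4 (norm_nonneg _)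
  rw [lt_div_iff₀ (by positivity)] at ht
  have h6 := norm_nonneg t
  nlinarith

end Pool.Agent.Hhelper97.WHTriv
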