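import Pool.Agent.Hhelper97.WHTriv.Scale

/-!
Second order expansions of polynomials, weighted homogeneous polynomials, and an equivariant vector
field which is transversal to the fibres of a polynomial with an isolated critical point.
-/

set_option autoImplicit false
set_option linter.unusedSectionVars false

open Filter Topology Set MvPolynomial

namespace Pool.Agent.Hhelper97.WHTriv

variable {ι : Type} [Fintype ι]

theorem contDiff_eval (f : MvPolynomial ι ℂ) : ContDiff ℝ 1 (fun p : ι → ℂ => eval p f) := by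
  induction f using MvPolynomial.induction_on with
  | C a => simpa using contDiff_const
  | add f g hf hg =>
    simp only [map_add]
    exact hf.add hg
  | mul_X f i hf =>
    simp only [map_mul, eval_X]
    exact hf.mul (contDiff_apply ℝ ℂ i)

/-- the differential -/
noncomputable def dv (f : MvPolynomial ι ℂ) (p v : ι → ℂ) : ℂ := ∑ i, eval p (pderiv i f) * v i

theorem contDiff_dv (f : MvPolynomial ι ℂ) :
    ContDiff ℝ 1 (fun q : (ι → ℂ) × (ι → ℂ) × ℂ => dv f q.1 q.2.1) := by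
  unfold dv
  apply ContDiff.sum
  intro i _
  apply ContDiff.mul
  · exact (contDiff_eval (pderiv i f)).comp contDiff_fst
  · exact (contDiff_apply ℝ ℂ i).comp (contDiff_fst.comp contDiff_snd)

theorem expand (f : MvPolynomial ι ℂ) : ∃ R : (ι → ℂ) × (ι → ℂ) × ℂ → ℂ, ContDiff ℝ 1 R ∧
    ∀ p v τ, eval (p + τ • v) f = eval p f + τ * dv f p v + τ ^ 2 * R (p, v, τ) := by
  classical
  induction f using MvPolynomial.induction_on with
  | C a =>
    refine ⟨fun _ => 0, contDiff_const, ?_⟩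
    intro p v τ
    simp [dv]
  | add f g hf hg =>
    obtain ⟨R, hR, h1⟩ := hf
    obtain ⟨R', hR', h2⟩ := hg
    refine ⟨fun q => R q + R' q, hR.add hR', ?_⟩
    intro p v τ
    have h3 : dv (f + g) p v = dv f p v + dv g p v := by
      unfold dv
      simp only [map_add, add_mul, Finset.sum_add_distrib]
    rw [map_add, map_add, h1, h2, h3]
    ring
  | mul_X f j hf =>
    obtain ⟨R, hR, h1⟩ := hf
    refine ⟨fun q => dv f q.1 q.2.1 * q.2.1 j + R q * q.1 j + q.2.2 * R q * q.2.1 j, ?_, ?_⟩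
    · have c1 : ContDiff ℝ 1 (fun q : (ι → ℂ) × (ι → ℂ) × ℂ => q.2.1 j) :=
        (contDiff_apply ℝ ℂ j).comp (contDiff_fst.comp contDiff_snd)
      have c2 : ContDiff ℝ 1 (fun q : (ι → ℂ) × (ι → ℂ) × ℂ => q.1 j) :=
        (contDiff_apply ℝ ℂ j).comp contDiff_fst
      have c3 : ContDiff ℝ 1 (fun q : (ι → ℂ) × (ι → ℂ) × ℂ => q.2.2) :=
        contDiff_snd.comp contDiff_snd
      exact (((contDiff_dv f).mul c1).add (hR.mul c2)).add ((c3.mul hR).mul c1)
    · intro p v τ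
      have h3 : dv (f * X j) p v = dv f p v * p j + eval p f * v j := by
        unfold dv
        rw [Finset.sum_mul]
        have h4 : ∀ i, eval p (pderiv i (f * X j)) * v i =
            eval p (pderiv i f) * v i * p j + (if i = j then eval p f * v i else 0) := by
          intro i
          rw [Derivation.leibniz, map_add, smul_eq_mul, smul_eq_mul, map_mul, map_mul, eval_X]
          by_cases hij : i = j
          · subst hij
            rw [pderiv_X_self, if_pos rfl, map_one]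
            ring
          · rw [pderiv_X_of_ne (Ne.symm hij), if_neg hij, map_zero]
            ring
        rw [Finset.sum_congr rfl (fun i _ => h4 i), Finset.sum_add_distrib]
        congr 1
        simp
      rw [map_mul, map_mul, eval_X, eval_X, h1, h3]
      simp only [Pi.add_apply, Pi.smul_apply, smul_eq_mul]
      ring

theorem eval_S {f : MvPolynomial ι ℂ} {ω : ι → ℕ} {n : ℕ} (hf : f.IsWeightedHomogeneous ω n)
    (ρ : ℝ) (p : ι → ℂ) : eval (S ω ρ p) f = (ρ : ℂ) ^ n * eval p f := by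
  rw [eval_eq', eval_eq', Finset.mul_sum]
  refine Finset.sum_congr rfl (fun m hm => ?_)
  have h1 : Finsupp.weight ω m = n := hf (mem_support_iff.1 hm)
  have h2 : ∑ i, m i * ω i = n := by
    rw [← h1, Finsupp.weight_apply, Finsupp.sum_fintype]
    · rfl
    · intro i
      simp
  have h3 : ∏ i, S ω ρ p i ^ m i = (ρ : ℂ) ^ n * ∏ i, p i ^ m i := by
    unfold S
    simp only [mul_pow, Finset.prod_mul_distrib, ← pow_mul]
    rw [Finset.prod_pow_eq_pow_sum]
    congr 2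
    rw [← h2]
    exact Finset.sum_congr rfl (fun i _ => mul_comm _ _)
  rw [h3]
  ring

section

variable {f : MvPolynomial ι ℂ} {ω : ι → ℕ} {d : ℕ}

open Classical in
/-- exponents -/
noncomputable def ka (ω : ι → ℕ) (d : ℕ) (i : ι) : ℕ := ∏ j ∈ Finset.univ.erase i, (d - ω j)

/-- common degree -/
noncomputable def Ka (ω : ι → ℕ) (d : ℕ) : ℕ := ∏ j : ι, (d - ω j)

theorem ka_mul (ω : ι → ℕ) (d : ℕ) (i : ι) : (d - ω i) * ka ω d i = Ka ω d := by
  classical
  unfold ka Ka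
  exact Finset.mul_prod_erase Finset.univ (fun j => d - ω j) (Finset.mem_univ i)

theorem ka_pos (hd : ∀ i, ω i < d) (i : ι) : 1 ≤ ka ω d i := by
  classical
  unfold ka
  exact Nat.succ_le_of_lt (Finset.prod_pos (fun j _ => Nat.sub_pos_of_lt (hd j)))

/-- the denominator of the vector field -/
noncomputable def Dn (f : MvPolynomial ι ℂ) (ω : ι → ℕ) (d : ℕ) (p : ι → ℂ) : ℝ :=
  ∑ j, (‖eval p (pderiv j f)‖ ^ 2) ^ ka ω d j

/-- the vector field -/
noncomputable def nu (f : MvPolynomial ι ℂ) (ω : ι → ℕ) (d : ℕ) (p : ι → ℂ) : ι → ℂ := fun i =>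
  (starRingEnd ℂ) (eval p (pderiv i f)) *
    (((‖eval p (pderiv i f)‖ ^ 2) ^ (ka ω d i - 1) / Dn f ω d p : ℝ) : ℂ)

theorem Dn_pos (hiso : ∀ p, (∀ i, eval p (pderiv i f) = 0) → p = 0)
    {p : ι → ℂ} (hp : p ≠ 0) : 0 < Dn f ω d p := by
  have h1 : ∃ i, eval p (pderiv i f) ≠ 0 := by
    by_contra hcon
    push Not at hcon
    exact hp (hiso p hcon)
  obtain ⟨i, hi⟩ := h1
  unfold Dn
  apply Finset.sum_pos'
  · intro j _
    positivity
  · refine ⟨i, Finset.mem_univ i, ?_⟩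
    have := norm_pos_iff.2 hi
    positivity

theorem dv_nu (hd : ∀ i, ω i < d) (hiso : ∀ p, (∀ i, eval p (pderiv i f) = 0) → p = 0)
    {p : ι → ℂ} (hp : p ≠ 0) : dv f p (nu f ω d p) = 1 := by
  have hD := Dn_pos (ω := ω) (d := d) hiso hp
  unfold dv nu
  have h1 : ∀ i, eval p (pderiv i f) * ((starRingEnd ℂ) (eval p (pderiv i f)) *
      (((‖eval p (pderiv i f)‖ ^ 2) ^ (ka ω d i - 1) / Dn f ω d p : ℝ) : ℂ)) =
      (((‖eval p (pderiv i f)‖ ^ 2) ^ ka ω d i / Dn f ω d p : ℝ) : ℂ) := by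
    intro i
    have h2 : (‖eval p (pderiv i f)‖ ^ 2) ^ ka ω d i =
        ‖eval p (pderiv i f)‖ ^ 2 * (‖eval p (pderiv i f)‖ ^ 2) ^ (ka ω d i - 1) := by
      rw [← pow_succ']
      congr 1
      have := ka_pos hd i
      omega
    rw [h2, ← mul_assoc, Complex.mul_conj, Complex.normSq_eq_norm_sq, ← Complex.ofReal_mul]
    congr 1
    ring
  rw [Finset.sum_congr rfl (fun i _ => h1 i), ← Complex.ofReal_sum, ← Finset.sum_div]
  change (((Dn f ω d p) / Dn f ω d p : ℝ) : ℂ) = 1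
  rw [div_self hD.ne', Complex.ofReal_one]

theorem eval_pderiv_S (hd : ∀ i, ω i < d) (hf : f.IsWeightedHomogeneous ω d) (ρ : ℝ)
    (p : ι → ℂ) (i : ι) :
    eval (S ω ρ p) (pderiv i f) = (ρ : ℂ) ^ (d - ω i) * eval p (pderiv i f) := by
  apply eval_S
  apply hf.pderiv
  have := hd i
  omega

theorem norm_pderiv_S (hd : ∀ i, ω i < d) (hf : f.IsWeightedHomogeneous ω d) {ρ : ℝ}
    (hρ : 0 < ρ) (p : ι → ℂ) (i : ι) (n : ℕ) :
    (‖eval (S ω ρ p) (pderiv i f)‖ ^ 2) ^ n =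
      ρ ^ (2 * ((d - ω i) * n)) * (‖eval p (pderiv i f)‖ ^ 2) ^ n := by
  rw [eval_pderiv_S hd hf, norm_mul, norm_pow, Complex.norm_real, Real.norm_eq_abs,
    abs_of_pos hρ, mul_pow, mul_pow]
  congr 1
  rw [← pow_mul, ← pow_mul]
  congr 1
  ring

theorem Dn_S (hd : ∀ i, ω i < d) (hf : f.IsWeightedHomogeneous ω d) {ρ : ℝ} (hρ : 0 < ρ)
    (p : ι → ℂ) : Dn f ω d (S ω ρ p) = ρ ^ (2 * Ka ω d) * Dn f ω d p := by
  unfold Dn
  rw [Finset.mul_sum]
  refine Finset.sum_congr rfl (fun i _ => ?_)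
  rw [norm_pderiv_S hd hf hρ, ka_mul]

/-- equivariance of the vector field -/
theorem nu_S (hd : ∀ i, ω i < d) (hf : f.IsWeightedHomogeneous ω d)
    (hiso : ∀ p, (∀ i, eval p (pderiv i f) = 0) → p = 0) {ρ : ℝ} (hρ : 0 < ρ) {p : ι → ℂ}
    (hp : p ≠ 0) : S ω ρ (nu f ω d p) = ((ρ : ℂ) ^ d) • nu f ω d (S ω ρ p) := by
  have hD := Dn_pos (ω := ω) (d := d) hiso hp
  funext i
  simp only [Pi.smul_apply, smul_eq_mul]
  unfold S
  change (ρ : ℂ) ^ ω i * nu f ω d p i = (ρ : ℂ) ^ d * nu f ω d (S ω ρ p) i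
  unfold nu
  rw [norm_pderiv_S hd hf hρ, Dn_S hd hf hρ, eval_pderiv_S hd hf]
  have hk := ka_pos hd i
  have hi := hd i
  have e1 : ρ ^ (2 * Ka ω d) = ρ ^ (2 * ((d - ω i) * (ka ω d i - 1))) * ρ ^ (2 * (d - ω i)) := by
    rw [← pow_add]
    congr 1
    rw [← ka_mul ω d i]
    obtain ⟨l, hl⟩ : ∃ l, ka ω d i = l + 1 := ⟨ka ω d i - 1, by omega⟩
    rw [hl]
    simp only [Nat.add_sub_cancel]
    ring
  have hρ' : (ρ : ℂ) ≠ 0 := Complex.ofReal_ne_zero.2 hρ.ne'
  rw [e1]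
  have e2 : ρ ^ (2 * ((d - ω i) * (ka ω d i - 1))) *
      (‖eval p (pderiv i f)‖ ^ 2) ^ (ka ω d i - 1) /
      (ρ ^ (2 * ((d - ω i) * (ka ω d i - 1))) * ρ ^ (2 * (d - ω i)) * Dn f ω d p) =
      (‖eval p (pderiv i f)‖ ^ 2) ^ (ka ω d i - 1) / Dn f ω d p / ρ ^ (2 * (d - ω i)) := by
    have : ρ ^ (2 * ((d - ω i) * (ka ω d i - 1))) ≠ 0 := (pow_pos hρ _).ne'
    have h3 : ρ ^ (2 * (d - ω i)) ≠ 0 := (pow_pos hρ _).ne'
    field_simp
  rw [e2, map_mul, map_pow, Complex.conj_ofReal]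
  push_cast
  have e3 : (ρ : ℂ) ^ d = (ρ : ℂ) ^ ω i * (ρ : ℂ) ^ (d - ω i) := by
    rw [← pow_add]
    congr 1
    omega
  have e4 : (ρ : ℂ) ^ (2 * (d - ω i)) = (ρ : ℂ) ^ (d - ω i) * (ρ : ℂ) ^ (d - ω i) := by
    rw [← pow_add]
    congr 1
    ring
  rw [e3, e4]
  have h4 : (ρ : ℂ) ^ (d - ω i) ≠ 0 := pow_ne_zero _ hρ'
  field_simp

theorem contDiffAt_nu
    (hiso : ∀ p, (∀ i, eval p (pderiv i f) = 0) → p = 0) {p : ι → ℂ} (hp : p ≠ 0) :
    ContDiffAt ℝ 1 (nu f ω d) p := by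
  have hD := Dn_pos (ω := ω) (d := d) hiso hp
  have hn : ∀ i n, ContDiff ℝ 1 (fun p : ι → ℂ => (‖eval p (pderiv i f)‖ ^ 2) ^ n) := by
    intro i n
    exact ((contDiff_eval (pderiv i f)).norm_sq ℝ).pow n
  have hDc : ContDiff ℝ 1 (Dn f ω d) := by
    unfold Dn
    exact ContDiff.sum (fun i _ => hn i _)
  rw [contDiffAt_pi]
  intro i
  unfold nu
  apply ContDiffAt.mul
  · exact (Complex.conjCLE.contDiff.comp (contDiff_eval (pderiv i f))).contDiffAt
  · have h1 : ContDiffAt ℝ 1 (fun p => (‖eval p (pderiv i f)‖ ^ 2) ^ (ka ω d i - 1) /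
        Dn f ω d p) p := (hn i _).contDiffAt.div hDc.contDiffAt hD.ne'
    exact Complex.ofRealCLM.contDiff.contDiffAt.comp p h1

end

end Pool.Agent.Hhelper97.WHTriv
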