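import Pool.Agent.Hhelper97.WHTriv.Expand

/-!
A small weighted homogeneous perturbation of a weighted homogeneous polynomial with an isolated
critical point is topologically right equivalent to it.
-/

set_option autoImplicit false
set_option linter.unusedSectionVars false

open Filter Topology Set MvPolynomial

namespace Pool.Agent.Hhelper97.WHTriv

variable {ι : Type} [Fintype ι]

/-- the shell -/
def Sh (ι : Type) [Fintype ι] : Set (ι → ℂ) := {p | 1 / 2 ≤ ‖p‖ ∧ ‖p‖ ≤ 3 / 2}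

theorem isCompact_Sh : IsCompact (Sh ι) := by
  have h1 : Sh ι ⊆ Metric.closedBall 0 (3 / 2) := by
    intro p hp
    rw [mem_closedBall_zero_iff]
    exact hp.2
  apply (isCompact_closedBall (0 : ι → ℂ) (3 / 2)).of_isClosed_subset _ h1
  exact (isClosed_le continuous_const continuous_norm).inter
    (isClosed_le continuous_norm continuous_const)

theorem Sh_ne {p : ι → ℂ} (hp : p ∈ Sh ι) : p ≠ 0 := by
  intro h
  have := hp.1
  rw [h, norm_zero] at this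
  norm_num at this

/-- a function which is locally C^1 on a compact set is Lipschitz and bounded there -/
theorem lip_of_contDiff {X Y : Type} [NormedAddCommGroup X] [NormedSpace ℝ X]
    [NormedAddCommGroup Y] [NormedSpace ℝ Y] {s : Set X} (hs : IsCompact s) {g : X → Y}
    (hg : ∀ x ∈ s, ContDiffAt ℝ 1 g x) : ∃ M : ℝ, 1 ≤ M ∧ (∀ x ∈ s, ‖g x‖ ≤ M) ∧
      ∀ x ∈ s, ∀ y ∈ s, ‖g x - g y‖ ≤ M * ‖x - y‖ := by
  have h1 : LocallyLipschitzOn s g := by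
    intro x hx
    obtain ⟨K, t, ht, hK⟩ := (hg x hx).exists_lipschitzOnWith
    exact ⟨K, t, mem_nhdsWithin_of_mem_nhds ht, hK⟩
  obtain ⟨K, hK⟩ := h1.exists_lipschitzOnWith_of_compact hs
  obtain ⟨C, hC⟩ := hs.exists_bound_of_continuousOn h1.continuousOn
  refine ⟨max 1 (max K C), le_max_left _ _, ?_, ?_⟩
  · intro x hx
    exact (hC x hx).trans ((le_max_right _ _).trans (le_max_right _ _))
  · intro x hx y hy
    have := hK.dist_le_mul x hx y hy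
    rw [dist_eq_norm, dist_eq_norm] at this
    refine this.trans (mul_le_mul_of_nonneg_right ?_ (norm_nonneg _))
    exact (le_max_left _ _).trans (le_max_right _ _)

theorem scale_unique {ω : ι → ℕ} (hω : ∀ i, 1 ≤ ω i) {ρ ρ' : ℝ} (hρ : 0 < ρ) (hρ' : 0 < ρ')
    {u u' : ι → ℂ} (hu : ‖u‖ = 1) (hu' : ‖u'‖ = 1) (h : S ω ρ u = S ω ρ' u') : ρ = ρ' := by
  have key : ∀ (ρ ρ' : ℝ), 0 < ρ → 0 < ρ' → ∀ u u' : ι → ℂ, ‖u‖ = 1 → ‖u'‖ = 1 →
      S ω ρ u = S ω ρ' u' → ρ' ≤ ρ := by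
    intro ρ ρ' hρ hρ' u u' hu hu' h
    by_contra hcon
    push Not at hcon
    have h1 : S ω (ρ'⁻¹ * ρ) u = u' := by
      rw [← S_S, h, S_inv ω hρ']
    have h0 : 0 < ρ'⁻¹ * ρ := by positivity
    have h2 : ρ'⁻¹ * ρ < 1 := by
      rw [inv_mul_lt_iff₀ hρ', mul_one]
      exact hcon
    have h3 := norm_S_le' hω (Ω := ∑ i, ω i)
      (fun i => Finset.single_le_sum (f := ω) (fun _ _ => Nat.zero_le _) (Finset.mem_univ i))
      h0 h2.le u
    rw [h1, hu, hu'] at h3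
    linarith
  exact le_antisymm (key ρ' ρ hρ' hρ u' u hu' hu h.symm) (key ρ ρ' hρ hρ' u u' hu hu' h)

/-- Topological triviality of small weighted homogeneous perturbations: if `f` and `h` are weighted
homogeneous of the same degree, with weights at least one and less than the degree, and if the
origin is the only critical point of `f`, then for all small `t` there is a homeomorphism `Ψ` with
`f ∘ Ψ = f + t h`. -/
theorem wh_trivial {f h : MvPolynomial ι ℂ} {ω : ι → ℕ} {d : ℕ} (hω : ∀ i, 1 ≤ ω i)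
    (hd : ∀ i, ω i < d) (hf : f.IsWeightedHomogeneous ω d) (hh : h.IsWeightedHomogeneous ω d)
    (hd0 : 0 < d)
    (hiso : ∀ p, (∀ i, eval p (pderiv i f) = 0) → p = 0) :
    ∃ ε > 0, ∀ t : ℂ, ‖t‖ < ε → ∃ Ψ : (ι → ℂ) ≃ₜ (ι → ℂ), Ψ 0 = 0 ∧
      ∀ p, eval (Ψ p) f = eval p (f + C t * h) := by
  classical
  obtain ⟨R, hR, hexp⟩ := expand f
  -- constants
  obtain ⟨M1, hM1, hb1, hl1⟩ := lip_of_contDiff (isCompact_Sh (ι := ι)) (g := nu f ω d)
    (fun p hp => contDiffAt_nu hiso (Sh_ne hp))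
  obtain ⟨M2, hM2, hb2, hl2⟩ := lip_of_contDiff (isCompact_Sh (ι := ι))
    (g := fun p => eval p h) (fun p _ => (contDiff_eval h).contDiffAt)
  obtain ⟨M3, hM3, hb3, hl3⟩ := lip_of_contDiff
    (s := Metric.closedBall (0 : ι → ℂ) 2 ×ˢ (Metric.closedBall (0 : ι → ℂ) M1 ×ˢ
      Metric.closedBall (0 : ℂ) 1))
    ((isCompact_closedBall _ _).prod ((isCompact_closedBall _ _).prod
      (isCompact_closedBall _ _))) (g := R) (fun p _ => hR.contDiffAt)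
  obtain ⟨Ω, hΩd⟩ : ∃ Ω, Ω = ∑ i, ω i := ⟨_, rfl⟩
  have hΩ : ∀ i, ω i ≤ Ω := by
    intro i
    rw [hΩd]
    exact Finset.single_le_sum (f := ω) (fun _ _ => Nat.zero_le _) (Finset.mem_univ i)
  obtain ⟨τ1, hτ1⟩ : ∃ τ1 : ℝ, τ1 = 1 / (16 * M3) := ⟨_, rfl⟩
  have hτ10 : 0 < τ1 := by rw [hτ1]; positivity
  have hτ1M : τ1 * M3 = 1 / 16 := by rw [hτ1]; field_simp
  have hτ11 : τ1 ≤ 1 := by
    rw [hτ1, div_le_one (by positivity)]
    linarith
  -- the difference of two remainders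
  have hrem : ∀ p ∈ Sh ι, ∀ p' ∈ Sh ι, ∀ τ τ' : ℂ, ‖τ‖ ≤ τ1 → ‖τ'‖ ≤ τ1 →
      ‖τ ^ 2 * R (p, nu f ω d p, τ) - τ' ^ 2 * R (p', nu f ω d p', τ')‖ ≤
        1 / 4 * ‖τ - τ'‖ + ‖τ'‖ * (1 + M1) * ‖p - p'‖ := by
    intro p hp p' hp' τ τ' hτ hτ'
    have hm : ∀ p ∈ Sh ι, ∀ τ : ℂ, ‖τ‖ ≤ τ1 → (p, nu f ω d p, τ) ∈
        Metric.closedBall (0 : ι → ℂ) 2 ×ˢ (Metric.closedBall (0 : ι → ℂ) M1 ×ˢ
          Metric.closedBall (0 : ℂ) 1) := by
      intro p hp τ hτ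
      refine ⟨?_, ?_, ?_⟩
      · rw [mem_closedBall_zero_iff]
        exact hp.2.trans (by norm_num)
      · rw [mem_closedBall_zero_iff]
        exact hb1 p hp
      · rw [mem_closedBall_zero_iff]
        exact hτ.trans hτ11
    have h1 := hb3 _ (hm p hp τ hτ)
    have h2 := hl3 _ (hm p hp τ hτ) _ (hm p' hp' τ' hτ')
    have h3 : ‖(p, nu f ω d p, τ) - (p', nu f ω d p', τ')‖ ≤
        (1 + M1) * ‖p - p'‖ + ‖τ - τ'‖ := by
      have h4 := hl1 p hp p' hp'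
      have h5 : (p, nu f ω d p, τ) - (p', nu f ω d p', τ') =
          (p - p', nu f ω d p - nu f ω d p', τ - τ') := rfl
      rw [h5, Prod.norm_def, Prod.norm_def]
      have h6 := norm_nonneg (p - p')
      have h7 := norm_nonneg (τ - τ')
      have h8 : 0 ≤ M1 * ‖p - p'‖ := by positivity
      apply max_le
      · simp only
        linarith
      · apply max_le
        · simp only
          linarith
        · simp only
          linarith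
    have h4 : τ ^ 2 * R (p, nu f ω d p, τ) - τ' ^ 2 * R (p', nu f ω d p', τ') =
        (τ - τ') * (τ + τ') * R (p, nu f ω d p, τ) +
          τ' * (τ' * (R (p, nu f ω d p, τ) - R (p', nu f ω d p', τ'))) := by ring
    rw [h4]
    have h5 : ‖(τ - τ') * (τ + τ') * R (p, nu f ω d p, τ)‖ ≤ ‖τ - τ'‖ * (2 * τ1) * M3 := by
      rw [norm_mul, norm_mul]
      apply mul_le_mul _ h1 (norm_nonneg _) (by positivity)
      apply mul_le_mul_of_nonneg_left _ (norm_nonneg _)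
      calc ‖τ + τ'‖ ≤ ‖τ‖ + ‖τ'‖ := norm_add_le _ _
        _ ≤ 2 * τ1 := by linarith
    have h6 : ‖τ' * (τ' * (R (p, nu f ω d p, τ) - R (p', nu f ω d p', τ')))‖ ≤
        ‖τ'‖ * (τ1 * (M3 * ((1 + M1) * ‖p - p'‖ + ‖τ - τ'‖))) := by
      rw [norm_mul, norm_mul]
      apply mul_le_mul_of_nonneg_left _ (norm_nonneg _)
      apply mul_le_mul hτ' _ (norm_nonneg _) hτ10.le
      exact h2.trans (mul_le_mul_of_nonneg_left h3 (by linarith))
    have h7 : ‖τ'‖ * (τ1 * (M3 * ((1 + M1) * ‖p - p'‖ + ‖τ - τ'‖))) =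
        (τ1 * M3) * (‖τ'‖ * ((1 + M1) * ‖p - p'‖) + ‖τ'‖ * ‖τ - τ'‖) := by ring
    have h8 : ‖τ - τ'‖ * (2 * τ1) * M3 = 2 * (τ1 * M3) * ‖τ - τ'‖ := by ring
    rw [h7, hτ1M] at h6
    rw [h8, hτ1M] at h5
    have h9 : ‖τ'‖ * ‖τ - τ'‖ ≤ 1 * ‖τ - τ'‖ :=
      mul_le_mul_of_nonneg_right (hτ'.trans hτ11) (norm_nonneg _)
    have h10 : 0 ≤ ‖τ'‖ * ((1 + M1) * ‖p - p'‖) := by positivity
    have h11 := norm_nonneg (τ - τ')
    calc _ ≤ _ := norm_add_le _ _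
      _ ≤ 2 * (1 / 16) * ‖τ - τ'‖ +
          1 / 16 * (‖τ'‖ * ((1 + M1) * ‖p - p'‖) + ‖τ'‖ * ‖τ - τ'‖) := add_le_add h5 h6
      _ ≤ 1 / 4 * ‖τ - τ'‖ + ‖τ'‖ * (1 + M1) * ‖p - p'‖ := by nlinarith
  -- solutions are small, and depend on the point in a Lipschitz way
  have hsol : ∀ t : ℂ, ∀ p ∈ Sh ι, ∀ p' ∈ Sh ι, ∀ τ τ' : ℂ, ‖τ‖ ≤ τ1 → ‖τ'‖ ≤ τ1 →
      τ + τ ^ 2 * R (p, nu f ω d p, τ) = t * eval p h →
      τ' + τ' ^ 2 * R (p', nu f ω d p', τ') = t * eval p' h →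
      ‖τ'‖ ≤ 2 * M2 * ‖t‖ ∧ ‖τ - τ'‖ ≤ 2 * M2 * (2 + M1) * 2 * ‖t‖ * ‖p - p'‖ := by
    intro t p hp p' hp' τ τ' hτ hτ' h1 h2
    have h3 : ‖τ'‖ ≤ 2 * M2 * ‖t‖ := by
      have h4 := hrem p' hp' p' hp' τ' 0 hτ' (by rw [norm_zero]; exact hτ10.le)
      rw [sub_zero, norm_zero, zero_mul, zero_mul, add_zero] at h4
      have h5 : τ' = t * eval p' h - (τ' ^ 2 * R (p', nu f ω d p', τ') -
          0 ^ 2 * R (p', nu f ω d p', 0)) := by
        rw [← h2]; ring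
      have h6 : ‖τ'‖ ≤ ‖t * eval p' h‖ + 1 / 4 * ‖τ'‖ := by
        calc ‖τ'‖ = ‖t * eval p' h - (τ' ^ 2 * R (p', nu f ω d p', τ') -
              0 ^ 2 * R (p', nu f ω d p', 0))‖ := by rw [← h5]
          _ ≤ _ := (norm_sub_le _ _).trans (add_le_add le_rfl h4)
      have h7 : ‖t * eval p' h‖ ≤ ‖t‖ * M2 := by
        rw [norm_mul]
        exact mul_le_mul_of_nonneg_left (hb2 p' hp') (norm_nonneg _)
      have h8 : 0 ≤ ‖t‖ * M2 := by positivity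
      nlinarith [norm_nonneg τ']
    refine ⟨h3, ?_⟩
    have h4 := hrem p hp p' hp' τ τ' hτ hτ'
    have h5 : τ - τ' = t * (eval p h - eval p' h) -
        (τ ^ 2 * R (p, nu f ω d p, τ) - τ' ^ 2 * R (p', nu f ω d p', τ')) := by
      linear_combination h1 - h2
    have h6 : ‖τ - τ'‖ ≤ ‖t‖ * (M2 * ‖p - p'‖) +
        (1 / 4 * ‖τ - τ'‖ + ‖τ'‖ * (1 + M1) * ‖p - p'‖) := by
      calc ‖τ - τ'‖ = ‖t * (eval p h - eval p' h) -
            (τ ^ 2 * R (p, nu f ω d p, τ) - τ' ^ 2 * R (p', nu f ω d p', τ'))‖ := by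
            rw [← h5]
        _ ≤ _ := norm_sub_le _ _
        _ ≤ _ := by
          apply add_le_add _ h4
          rw [norm_mul]
          exact mul_le_mul_of_nonneg_left (hl2 p hp p' hp') (norm_nonneg _)
    have h7 : ‖τ'‖ * (1 + M1) * ‖p - p'‖ ≤ 2 * M2 * ‖t‖ * (1 + M1) * ‖p - p'‖ := by
      apply mul_le_mul_of_nonneg_right _ (norm_nonneg _)
      exact mul_le_mul_of_nonneg_right h3 (by linarith)
    have h8 : 0 ≤ M2 * ‖t‖ * ‖p - p'‖ := by positivity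
    have h9 : 0 ≤ M1 * (M2 * ‖t‖ * ‖p - p'‖) := by positivity
    nlinarith [norm_nonneg (τ - τ')]
  -- existence of solutions
  have hex : ∀ t : ℂ, M2 * ‖t‖ ≤ τ1 / 2 → ∀ p ∈ Sh ι, ∃ τ : ℂ, ‖τ‖ ≤ τ1 ∧
      τ + τ ^ 2 * R (p, nu f ω d p, τ) = t * eval p h := by
    intro t ht p hp
    obtain ⟨τ, hτ, hfix⟩ := exists_fix
      (T := fun τ : ℂ => t * eval p h - τ ^ 2 * R (p, nu f ω d p, τ)) (c := 0) hτ10.le (by
        intro τ hτ
        rw [mem_closedBall_zero_iff] at hτ ⊢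
        have h4 := hrem p hp p hp τ 0 hτ (by rw [norm_zero]; exact hτ10.le)
        rw [sub_zero, norm_zero, zero_mul, zero_mul, add_zero] at h4
        have h5 : t * eval p h - τ ^ 2 * R (p, nu f ω d p, τ) = t * eval p h -
            (τ ^ 2 * R (p, nu f ω d p, τ) - 0 ^ 2 * R (p, nu f ω d p, 0)) := by ring
        rw [h5]
        have h7 : ‖t * eval p h‖ ≤ ‖t‖ * M2 := by
          rw [norm_mul]
          exact mul_le_mul_of_nonneg_left (hb2 p hp) (norm_nonneg _)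
        calc _ ≤ _ := norm_sub_le _ _
          _ ≤ ‖t‖ * M2 + 1 / 4 * ‖τ‖ := add_le_add h7 h4
          _ ≤ τ1 := by linarith) (by
        intro τ hτ τ' hτ'
        rw [mem_closedBall_zero_iff] at hτ hτ'
        have h4 := hrem p hp p hp τ τ' hτ hτ'
        rw [sub_self, norm_zero, mul_zero, add_zero] at h4
        have h5 : t * eval p h - τ ^ 2 * R (p, nu f ω d p, τ) -
            (t * eval p h - τ' ^ 2 * R (p, nu f ω d p, τ')) =
            -(τ ^ 2 * R (p, nu f ω d p, τ) - τ' ^ 2 * R (p, nu f ω d p, τ')) := by ring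
        rw [h5, norm_neg]
        linarith [norm_nonneg (τ - τ')])
    rw [mem_closedBall_zero_iff] at hτ
    refine ⟨τ, hτ, ?_⟩
    linear_combination -hfix
  -- the choice of the radius of the parameter
  obtain ⟨C1, hC1⟩ : ∃ C1 : ℝ, C1 = 2 * M2 * (2 + M1) * 2 * M1 + 2 * M2 * M1 * 2 ^ d := ⟨_, rfl⟩
  have hC10 : 0 < C1 := by rw [hC1]; positivity
  obtain ⟨B, hB⟩ : ∃ B : ℝ, B = 4 * ((1 + 2 ^ Ω) * C1) + 2 * M2 * 2 ^ d / τ1 := ⟨_, rfl⟩
  have hB0 : 0 < B := by rw [hB]; positivity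
  refine ⟨1 / B, by positivity, ?_⟩
  intro t ht
  have htB : B * ‖t‖ ≤ 1 := by
    rw [lt_div_iff₀ hB0] at ht
    linarith
  have ht1 : (1 + 2 ^ Ω) * (C1 * ‖t‖) ≤ 1 / 4 := by
    have h1 : 4 * ((1 + 2 ^ Ω) * C1) * ‖t‖ ≤ B * ‖t‖ := by
      apply mul_le_mul_of_nonneg_right _ (norm_nonneg _)
      rw [hB]
      have : 0 ≤ 2 * M2 * 2 ^ d / τ1 := by positivity
      linarith
    nlinarith
  have ht2 : 2 * M2 * 2 ^ d * ‖t‖ ≤ τ1 := by
    have h1 : 2 * M2 * 2 ^ d / τ1 * ‖t‖ ≤ B * ‖t‖ := by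
      apply mul_le_mul_of_nonneg_right _ (norm_nonneg _)
      rw [hB]
      have : 0 ≤ 4 * ((1 + 2 ^ Ω) * C1) := by positivity
      linarith
    have h2 : 2 * M2 * 2 ^ d / τ1 * ‖t‖ ≤ 1 := h1.trans htB
    rw [div_mul_eq_mul_div, div_le_one hτ10] at h2
    exact h2
  have ht3 : M2 * ‖t‖ ≤ τ1 / 2 := by
    have h1 : (1 : ℝ) ≤ 2 ^ d := one_le_pow₀ (by norm_num)
    have h2 : 0 ≤ M2 * ‖t‖ := by positivity
    nlinarith
  have hunit : ∀ u : ι → ℂ, ‖u‖ = 1 → u ∈ Sh ι := by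
    intro u hu
    constructor
    · rw [hu]; norm_num
    · rw [hu]; norm_num
  -- the solution on the unit sphere
  choose! τ0 hτ0 hτ0' using (fun (u : ι → ℂ) (hu : ‖u‖ = 1) => hex t ht3 u (hunit u hu))
  -- the scale
  have hsc : ∀ p : ι → ℂ, p ≠ 0 → ∃ ρ : ℝ, 0 < ρ ∧ ‖S ω ρ⁻¹ p‖ = 1 := by
    intro p hp
    obtain ⟨ρ, hρ, u, hu, rfl⟩ := exists_scale hω hp
    exact ⟨ρ, hρ, by rw [S_inv ω hρ, hu]⟩
  choose! N hN hN1 using hsc
  have hNS : ∀ ρ : ℝ, 0 < ρ → ∀ p : ι → ℂ, p ≠ 0 → N (S ω ρ p) = ρ * N p := by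
    intro ρ hρ p hp
    have hp' := S_ne ω hρ hp
    apply scale_unique hω (hN _ hp') (mul_pos hρ (hN p hp)) (hN1 _ hp') (hN1 p hp)
    rw [S_inv' ω (hN _ hp'), ← S_S, S_inv' ω (hN p hp)]
  obtain ⟨G, hG⟩ : ∃ G : (ι → ℂ) → (ι → ℂ), ∀ p, G p = if p = 0 then 0 else
      S ω (N p) (τ0 (S ω (N p)⁻¹ p) • nu f ω d (S ω (N p)⁻¹ p)) := ⟨_, fun p => rfl⟩
  have hG0 : G 0 = 0 := by rw [hG, if_pos rfl]
  have hGS : ∀ ρ : ℝ, 0 < ρ → ∀ p, G (S ω ρ p) = S ω ρ (G p) := by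
    intro ρ hρ p
    by_cases hp : p = 0
    · rw [hp, S_zero, hG0, S_zero]
    · have h1 : S ω (ρ * N p)⁻¹ (S ω ρ p) = S ω (N p)⁻¹ p := by
        rw [S_S]
        congr 1
        have := hN p hp
        field_simp
      rw [hG, hG, if_neg (S_ne ω hρ hp), if_neg hp, hNS ρ hρ p hp, h1, S_S]
  -- the displacement as a multiple of the vector field
  have hGτ : ∀ p : ι → ℂ, p ≠ 0 → G p =
      (((N p : ℝ) : ℂ) ^ d * τ0 (S ω (N p)⁻¹ p)) • nu f ω d p := by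
    intro p hp
    rw [hG, if_neg hp]
    have h1 : S ω (N p)⁻¹ p ≠ 0 := S_ne ω (inv_pos.2 (hN p hp)) hp
    have h2 := nu_S hd hf hiso (hN p hp) h1
    rw [S_inv' ω (hN p hp)] at h2
    have h3 : S ω (N p) (τ0 (S ω (N p)⁻¹ p) • nu f ω d (S ω (N p)⁻¹ p)) =
        τ0 (S ω (N p)⁻¹ p) • S ω (N p) (nu f ω d (S ω (N p)⁻¹ p)) := by
      funext i
      simp only [S, Pi.smul_apply, smul_eq_mul]
      ring
    rw [h3, h2, smul_smul, mul_comm]
  -- the equation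
  have heq0 : ∀ u : ι → ℂ, ‖u‖ = 1 → eval (u + τ0 u • nu f ω d u) f =
      eval u f + t * eval u h := by
    intro u hu
    rw [hexp, dv_nu hd hiso (Sh_ne (hunit u hu)), mul_one, ← hτ0' u hu]
    ring
  have heq : ∀ p : ι → ℂ, p ≠ 0 → eval (p + G p) f = eval p f + t * eval p h := by
    intro p hp
    have hNp := hN p hp
    have h1 : p + G p = S ω (N p) (S ω (N p)⁻¹ p +
        τ0 (S ω (N p)⁻¹ p) • nu f ω d (S ω (N p)⁻¹ p)) := by
      rw [S_add, S_inv' ω hNp, hG, if_neg hp]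
    rw [h1, eval_S hf, heq0 _ (hN1 p hp), mul_add, ← eval_S hf, S_inv' ω hNp,
      mul_left_comm, ← eval_S hh, S_inv' ω hNp]
  -- the scaled solution solves the equation near the unit sphere
  have hshell : ∀ p ∈ Sh ι, ‖((N p : ℝ) : ℂ) ^ d * τ0 (S ω (N p)⁻¹ p)‖ ≤ τ1 ∧
      ((N p : ℝ) : ℂ) ^ d * τ0 (S ω (N p)⁻¹ p) +
        (((N p : ℝ) : ℂ) ^ d * τ0 (S ω (N p)⁻¹ p)) ^ 2 *
          R (p, nu f ω d p, ((N p : ℝ) : ℂ) ^ d * τ0 (S ω (N p)⁻¹ p)) = t * eval p h := by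
    intro p hp
    have hp0 := Sh_ne hp
    have hNp := hN p hp0
    have hN2 : N p ≤ 2 := by
      apply scale_le hω hΩ hNp (hN1 p hp0) (by norm_num)
      rw [S_inv' ω hNp]
      exact hp.2.trans (by norm_num)
    have hu := hN1 p hp0
    have hsm := (hsol t _ (hunit _ hu) _ (hunit _ hu) _ _ (hτ0 _ hu) (hτ0 _ hu)
      (hτ0' _ hu) (hτ0' _ hu)).1
    constructor
    · rw [norm_mul, norm_pow, Complex.norm_real, Real.norm_eq_abs, abs_of_pos hNp]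
      calc N p ^ d * ‖τ0 (S ω (N p)⁻¹ p)‖ ≤ 2 ^ d * (2 * M2 * ‖t‖) :=
            mul_le_mul (pow_le_pow_left₀ hNp.le hN2 _) hsm (norm_nonneg _) (by positivity)
        _ = 2 * M2 * 2 ^ d * ‖t‖ := by ring
        _ ≤ τ1 := ht2
    · have h1 := heq p hp0
      rw [hGτ p hp0, hexp, dv_nu hd hiso hp0] at h1
      linear_combination h1
  have hcb : ∀ q : ι → ℂ, ‖q‖ = 1 → ∀ p ∈ Metric.closedBall q (1 / 4 : ℝ), p ∈ Sh ι := by
    intro q hq p hp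
    rw [mem_closedBall_iff_norm] at hp
    have h1 := norm_sub_norm_le q p
    have h2 := norm_sub_norm_le p q
    rw [norm_sub_rev] at h1
    rw [hq] at h1 h2
    constructor
    · linarith
    · linarith
  have hGb : ∀ q : ι → ℂ, ‖q‖ = 1 → ‖G q‖ ≤ C1 * ‖t‖ := by
    intro q hq
    have hq0 := Sh_ne (hunit q hq)
    obtain ⟨h1, h2⟩ := hshell q (hunit q hq)
    have h3 := (hsol t _ (hunit _ hq) _ (hunit _ hq) _ _ h1 h1 h2 h2).1
    rw [hGτ q hq0, norm_smul]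
    calc _ ≤ 2 * M2 * ‖t‖ * M1 := mul_le_mul h3 (hb1 q (hunit q hq)) (norm_nonneg _)
          (by positivity)
      _ ≤ C1 * ‖t‖ := by
        have h4 : (1 : ℝ) ≤ 2 ^ d := one_le_pow₀ (by norm_num)
        have h5 : 0 ≤ 2 * M2 * M1 * ‖t‖ := by positivity
        have h6 : 0 ≤ 2 * M2 * (2 + M1) * 2 * M1 * ‖t‖ := by positivity
        rw [hC1]
        nlinarith
  have hGl : ∀ q : ι → ℂ, ‖q‖ = 1 → ∀ p ∈ Metric.closedBall q (1 / 4 : ℝ),
      ∀ p' ∈ Metric.closedBall q (1 / 4 : ℝ), ‖G p - G p'‖ ≤ 1 / 2 * ‖p - p'‖ := by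
    intro q hq p hp p' hp'
    have hpS := hcb q hq p hp
    have hpS' := hcb q hq p' hp'
    obtain ⟨h1, h2⟩ := hshell p hpS
    obtain ⟨h1', h2'⟩ := hshell p' hpS'
    obtain ⟨h3, h4⟩ := hsol t p hpS p' hpS' _ _ h1 h1' h2 h2'
    rw [hGτ p (Sh_ne hpS), hGτ p' (Sh_ne hpS')]
    obtain ⟨a, ha⟩ : ∃ a, a = ((N p : ℝ) : ℂ) ^ d * τ0 (S ω (N p)⁻¹ p) := ⟨_, rfl⟩
    obtain ⟨a', ha'⟩ : ∃ a', a' = ((N p' : ℝ) : ℂ) ^ d * τ0 (S ω (N p')⁻¹ p') := ⟨_, rfl⟩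
    rw [← ha, ← ha'] at h4
    rw [← ha'] at h3
    rw [← ha, ← ha']
    have h5 : a • nu f ω d p - a' • nu f ω d p' =
        (a - a') • nu f ω d p + a' • (nu f ω d p - nu f ω d p') := by
      rw [sub_smul, smul_sub]
      abel
    rw [h5]
    have h6 : ‖(a - a') • nu f ω d p‖ ≤ 2 * M2 * (2 + M1) * 2 * ‖t‖ * ‖p - p'‖ * M1 := by
      rw [norm_smul]
      exact mul_le_mul h4 (hb1 p hpS) (norm_nonneg _) (by positivity)
    have h7 : ‖a' • (nu f ω d p - nu f ω d p')‖ ≤ 2 * M2 * ‖t‖ * (M1 * ‖p - p'‖) := by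
      rw [norm_smul]
      exact mul_le_mul h3 (hl1 p hpS p' hpS') (norm_nonneg _) (by positivity)
    have h8 : (C1 * ‖t‖) * ‖p - p'‖ ≤ 1 / 4 * ‖p - p'‖ := by
      apply mul_le_mul_of_nonneg_right _ (norm_nonneg _)
      have h9 : (1 : ℝ) ≤ 1 + 2 ^ Ω := by
        have : (0 : ℝ) ≤ 2 ^ Ω := by positivity
        linarith
      have h10 : 0 ≤ C1 * ‖t‖ := by positivity
      nlinarith
    calc _ ≤ _ := norm_add_le _ _
      _ ≤ 2 * M2 * (2 + M1) * 2 * ‖t‖ * ‖p - p'‖ * M1 + 2 * M2 * ‖t‖ * (M1 * ‖p - p'‖) :=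
        add_le_add h6 h7
      _ ≤ (C1 * ‖t‖) * ‖p - p'‖ := by
        have h9 : (1 : ℝ) ≤ 2 ^ d := one_le_pow₀ (by norm_num)
        have h10 : 0 ≤ 2 * M2 * M1 * ‖t‖ * ‖p - p'‖ := by positivity
        rw [hC1]
        nlinarith
      _ ≤ 1 / 2 * ‖p - p'‖ := by linarith [norm_nonneg (p - p')]
  have hε4 : C1 * ‖t‖ ≤ 1 / 8 := by
    have h9 : (2 : ℝ) ≤ 1 + 2 ^ Ω := by
      have : (1 : ℝ) ≤ 2 ^ Ω := one_le_pow₀ (by norm_num)
      linarith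
    have h10 : 0 ≤ C1 * ‖t‖ := by positivity
    nlinarith
  obtain ⟨Ψ, hΨ⟩ := exists_homeo hω hΩ hG0 hGS (ε := C1 * ‖t‖) (r := 1 / 4) (by positivity)
    (by norm_num) (by linarith) (by linarith) ht1 hGb hGl
  refine ⟨Ψ, ?_, ?_⟩
  · rw [hΨ, hG0, add_zero]
  · intro p
    rw [hΨ, map_add, map_mul, eval_C]
    by_cases hp : p = 0
    · rw [hp, hG0, add_zero]
      have h1 := eval_S hh 0 0
      rw [S_zero] at h1
      rw [h1]
      have h2 : ((0 : ℝ) : ℂ) ^ d = 0 := by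
        rw [Complex.ofReal_zero]
        exact zero_pow (by omega)
      rw [h2]
      ring
    · exact heq p hp

end Pool.Agent.Hhelper97.WHTriv
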