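import Mathlib

/-!
Weighted scalings, and maps which differ from the identity by a small equivariant map.
-/

set_option autoImplicit false
set_option linter.unusedSectionVars false

open Filter Topology Set

namespace Pool.Agent.Hhelper97.WHTriv

/-- a contraction of a closed ball has a fixed point -/
theorem exists_fix {X : Type} [NormedAddCommGroup X] [CompleteSpace X] {T : X → X} {c : X} {r : ℝ}
    (hr : 0 ≤ r) (hm : ∀ x ∈ Metric.closedBall c r, T x ∈ Metric.closedBall c r)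
    (hl : ∀ x ∈ Metric.closedBall c r, ∀ y ∈ Metric.closedBall c r,
      ‖T x - T y‖ ≤ 1 / 2 * ‖x - y‖) : ∃ x ∈ Metric.closedBall c r, T x = x := by
  have hmaps : MapsTo T (Metric.closedBall c r) (Metric.closedBall c r) := hm
  have hc : ContractingWith (1 / 2) (hmaps.restrict T _ _) := by
    refine ⟨by norm_num, ?_⟩
    apply LipschitzWith.of_dist_le_mul
    intro x y
    rw [Subtype.dist_eq, Subtype.dist_eq, dist_eq_norm, dist_eq_norm]
    have := hl x x.2 y y.2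
    simpa using this
  obtain ⟨y, hy, hfix, _⟩ := ContractingWith.exists_fixedPoint'
    (Metric.isClosed_closedBall.isComplete) hmaps hc (Metric.mem_closedBall_self hr)
    (edist_ne_top _ _)
  exact ⟨y, hy, hfix⟩

variable {ι : Type} [Fintype ι]

/-- the weighted scaling -/
noncomputable def S (ω : ι → ℕ) (ρ : ℝ) (p : ι → ℂ) : ι → ℂ := fun i => (ρ : ℂ) ^ ω i * p i

theorem S_S (ω : ι → ℕ) (ρ ρ' : ℝ) (p : ι → ℂ) : S ω ρ (S ω ρ' p) = S ω (ρ * ρ') p := by
  funext i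
  unfold S
  push_cast
  rw [mul_pow]
  ring

theorem S_one (ω : ι → ℕ) (p : ι → ℂ) : S ω 1 p = p := by
  funext i
  unfold S
  simp

theorem S_zero (ω : ι → ℕ) (ρ : ℝ) : S ω ρ 0 = 0 := by
  funext i
  unfold S
  simp

theorem S_add (ω : ι → ℕ) (ρ : ℝ) (p q : ι → ℂ) : S ω ρ (p + q) = S ω ρ p + S ω ρ q := by
  funext i
  unfold S
  simp only [Pi.add_apply]
  ring

theorem S_inv (ω : ι → ℕ) {ρ : ℝ} (h : 0 < ρ) (p : ι → ℂ) : S ω ρ⁻¹ (S ω ρ p) = p := by
  rw [S_S, inv_mul_cancel₀ h.ne', S_one]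

theorem S_inv' (ω : ι → ℕ) {ρ : ℝ} (h : 0 < ρ) (p : ι → ℂ) : S ω ρ (S ω ρ⁻¹ p) = p := by
  rw [S_S, mul_inv_cancel₀ h.ne', S_one]

theorem S_ne (ω : ι → ℕ) {ρ : ℝ} (h : 0 < ρ) {p : ι → ℂ} (hp : p ≠ 0) : S ω ρ p ≠ 0 := by
  intro h0
  apply hp
  rw [← S_inv ω h p, h0, S_zero]

theorem norm_S (ω : ι → ℕ) {ρ : ℝ} (h : 0 ≤ ρ) (p : ι → ℂ) (i : ι) :
    ‖S ω ρ p i‖ = ρ ^ ω i * ‖p i‖ := by
  unfold S
  rw [norm_mul, norm_pow, Complex.norm_real, Real.norm_eq_abs, abs_of_nonneg h]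

theorem continuous_S (ω : ι → ℕ) (ρ : ℝ) : Continuous (S ω ρ) := by
  unfold S
  fun_prop

theorem exists_norm_eq [Nonempty ι] (v : ι → ℂ) : ∃ i, ‖v i‖ = ‖v‖ := by
  obtain ⟨i, -, hi⟩ := Finset.exists_max_image Finset.univ (fun i => ‖v i‖)
    ⟨Classical.arbitrary ι, Finset.mem_univ _⟩
  refine ⟨i, le_antisymm (norm_le_pi_norm v i) ?_⟩
  exact (pi_norm_le_iff_of_nonneg (norm_nonneg _)).2 (fun j => hi j (Finset.mem_univ j))

/-- every nonzero vector is a scaled vector of norm one -/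
theorem exists_scale {ω : ι → ℕ} (hω : ∀ i, 1 ≤ ω i) {p : ι → ℂ} (hp : p ≠ 0) :
    ∃ ρ : ℝ, 0 < ρ ∧ ∃ u : ι → ℂ, ‖u‖ = 1 ∧ p = S ω ρ u := by
  obtain ⟨i0, hi0⟩ : ∃ i, p i ≠ 0 := by
    by_contra hcon
    push Not at hcon
    exact hp (funext hcon)
  obtain ⟨m, -, hm⟩ := Finset.exists_max_image Finset.univ
    (fun i => ‖p i‖ ^ ((ω i : ℝ)⁻¹)) ⟨i0, Finset.mem_univ _⟩
  obtain ⟨ρ, hρ⟩ : ∃ ρ, ρ = ‖p m‖ ^ ((ω m : ℝ)⁻¹) := ⟨_, rfl⟩
  have hv : ∀ i, (‖p i‖ ^ ((ω i : ℝ)⁻¹)) ^ ω i = ‖p i‖ := by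
    intro i
    rw [Real.rpow_inv_natCast_pow (norm_nonneg _)]
    have := hω i
    omega
  have hle : ∀ i, ‖p i‖ ^ ((ω i : ℝ)⁻¹) ≤ ρ := by
    intro i
    rw [hρ]
    exact hm i (Finset.mem_univ i)
  have hρ0 : 0 < ρ := by
    apply lt_of_lt_of_le _ (hle i0)
    exact Real.rpow_pos_of_pos (norm_pos_iff.2 hi0) _
  have hle' : ∀ i, ‖p i‖ ≤ ρ ^ ω i := by
    intro i
    rw [← hv i]
    exact pow_le_pow_left₀ (by positivity) (hle i) _
  have heq : ‖p m‖ = ρ ^ ω m := by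
    rw [← hv m, ← hρ]
  refine ⟨ρ, hρ0, S ω ρ⁻¹ p, ?_, (S_inv' ω hρ0 p).symm⟩
  have hn : ∀ i, ‖S ω ρ⁻¹ p i‖ = ‖p i‖ / ρ ^ ω i := by
    intro i
    rw [norm_S ω (inv_nonneg.2 hρ0.le), inv_pow]
    field_simp
  apply le_antisymm
  · rw [pi_norm_le_iff_of_nonneg zero_le_one]
    intro i
    rw [hn i, div_le_one (pow_pos hρ0 _)]
    exact hle' i
  · have h1 := norm_le_pi_norm (S ω ρ⁻¹ p) m
    rw [hn m, heq, div_self (pow_pos hρ0 _).ne'] at h1
    exact h1

section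

variable {ω : ι → ℕ} (hω : ∀ i, 1 ≤ ω i) {Ω : ℕ} (hΩ : ∀ i, ω i ≤ Ω)

include hω hΩ

/-- the scaling factor is bounded by the norm -/
theorem scale_pow_le {ρ : ℝ} (hρ : 0 < ρ) (h1 : ρ ≤ 1) {u : ι → ℂ} (hu : ‖u‖ = 1) :
    ρ ^ Ω ≤ ‖S ω ρ u‖ := by
  have : Nonempty ι := by
    by_contra hcon
    rw [not_nonempty_iff] at hcon
    have : u = 0 := Subsingleton.elim _ _
    rw [this, norm_zero] at hu
    exact zero_ne_one hu
  obtain ⟨i, hi⟩ := exists_norm_eq u
  have h2 := norm_le_pi_norm (S ω ρ u) i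
  rw [norm_S ω hρ.le, hi, hu, mul_one] at h2
  exact (pow_le_pow_of_le_one hρ.le h1 (hΩ i)).trans h2

/-- the scaling factor is bounded by the norm -/
theorem scale_le {ρ : ℝ} (hρ : 0 < ρ) {u : ι → ℂ} (hu : ‖u‖ = 1) {C : ℝ} (hC : 1 ≤ C)
    (h : ‖S ω ρ u‖ ≤ C) : ρ ≤ C := by
  by_cases h1 : ρ ≤ 1
  · exact h1.trans hC
  push Not at h1
  have : Nonempty ι := by
    by_contra hcon
    rw [not_nonempty_iff] at hcon
    have : u = 0 := Subsingleton.elim _ _
    rw [this, norm_zero] at hu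
    exact zero_ne_one hu
  obtain ⟨i, hi⟩ := exists_norm_eq u
  have h2 := norm_le_pi_norm (S ω ρ u) i
  rw [norm_S ω hρ.le, hi, hu, mul_one] at h2
  calc ρ = ρ ^ 1 := (pow_one ρ).symm
    _ ≤ ρ ^ ω i := pow_le_pow_right₀ h1.le (hω i)
    _ ≤ ‖S ω ρ u‖ := h2
    _ ≤ C := h

/-- the norm is bounded by the scaling factor -/
theorem norm_S_le {ρ : ℝ} (hρ : 0 < ρ) (h1 : 1 ≤ ρ) (u : ι → ℂ) :
    ‖S ω ρ u‖ ≤ ρ ^ Ω * ‖u‖ := by
  rw [pi_norm_le_iff_of_nonneg (by positivity)]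
  intro i
  rw [norm_S ω hρ.le]
  exact mul_le_mul (pow_le_pow_right₀ h1 (hΩ i)) (norm_le_pi_norm u i) (norm_nonneg _)
    (by positivity)

/-- the norm is bounded by the scaling factor -/
theorem norm_S_le' {ρ : ℝ} (hρ : 0 < ρ) (h1 : ρ ≤ 1) (u : ι → ℂ) :
    ‖S ω ρ u‖ ≤ ρ * ‖u‖ := by
  rw [pi_norm_le_iff_of_nonneg (by positivity)]
  intro i
  rw [norm_S ω hρ.le]
  refine mul_le_mul ?_ (norm_le_pi_norm u i) (norm_nonneg _) hρ.le
  calc ρ ^ ω i ≤ ρ ^ 1 := pow_le_pow_of_le_one hρ.le h1 (hω i)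
    _ = ρ := pow_one ρ

end

/-- a map which differs from the identity by a small equivariant map is a homeomorphism -/
theorem exists_homeo {ω : ι → ℕ} (hω : ∀ i, 1 ≤ ω i) {Ω : ℕ} (hΩ : ∀ i, ω i ≤ Ω)
    {G : (ι → ℂ) → (ι → ℂ)} (hG0 : G 0 = 0)
    (hGS : ∀ ρ : ℝ, 0 < ρ → ∀ p, G (S ω ρ p) = S ω ρ (G p)) {ε r : ℝ} (hε : 0 ≤ ε)
    (hr : 0 < r) (hε1 : ε ≤ 1 / 3) (hεr : ε ≤ r / 2)
    (hεC : (1 + 2 ^ Ω) * ε ≤ r) (hGb : ∀ q, ‖q‖ = 1 → ‖G q‖ ≤ ε)
    (hGl : ∀ q, ‖q‖ = 1 → ∀ p ∈ Metric.closedBall q r, ∀ p' ∈ Metric.closedBall q r,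
      ‖G p - G p'‖ ≤ 1 / 2 * ‖p - p'‖) :
    ∃ Ψ : (ι → ℂ) ≃ₜ (ι → ℂ), ∀ p, Ψ p = p + G p := by
  -- equivariance
  have hΨS : ∀ ρ : ℝ, 0 < ρ → ∀ p, S ω ρ p + G (S ω ρ p) = S ω ρ (p + G p) := by
    intro ρ hρ p
    rw [hGS ρ hρ, S_add]
  -- lower bound on the unit sphere
  have hlow : ∀ u : ι → ℂ, ‖u‖ = 1 → ∃ i, ∀ ρ : ℝ, 0 < ρ →
      ρ ^ ω i * (2 / 3) ≤ ‖S ω ρ (u + G u)‖ := by
    intro u hu
    have : Nonempty ι := by
      by_contra hcon
      rw [not_nonempty_iff] at hcon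
      have : u = 0 := Subsingleton.elim _ _
      rw [this, norm_zero] at hu
      exact zero_ne_one hu
    obtain ⟨i, hi⟩ := exists_norm_eq u
    refine ⟨i, fun ρ hρ => ?_⟩
    have h1 := norm_le_pi_norm (S ω ρ (u + G u)) i
    rw [norm_S ω hρ.le] at h1
    refine le_trans ?_ h1
    apply mul_le_mul_of_nonneg_left _ (by positivity)
    have h2 : ‖u i‖ - ‖G u i‖ ≤ ‖(u + G u) i‖ := by
      have := norm_sub_norm_le (u i) (-(G u i))
      rw [norm_neg, sub_neg_eq_add] at this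
      exact this
    have h3 := norm_le_pi_norm (G u) i
    have h4 := hGb u hu
    rw [hi, hu] at h2
    linarith
  have hne : ∀ p : ι → ℂ, p ≠ 0 → p + G p ≠ 0 := by
    intro p hp h0
    obtain ⟨ρ, hρ, u, hu, rfl⟩ := exists_scale hω hp
    rw [hΨS ρ hρ] at h0
    obtain ⟨i, hi⟩ := hlow u hu
    have h1 := hi ρ hρ
    rw [h0, norm_zero] at h1
    have h2 : 0 < ρ ^ ω i := pow_pos hρ _
    linarith
  -- injectivity
  have hinj : Function.Injective (fun p : ι → ℂ => p + G p) := by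
    intro p p' h
    simp only at h
    by_cases hp : p = 0
    · by_contra hcon
      have hp' : p' ≠ 0 := by
        intro h0
        exact hcon (hp.trans h0.symm)
      apply hne p' hp'
      rw [← h, hp, hG0, add_zero]
    · have hp' : p' ≠ 0 := by
        intro h0
        apply hne p hp
        rw [h, h0, hG0, add_zero]
      obtain ⟨ρ, hρ, q, hq, rfl⟩ := exists_scale hω hp
      obtain ⟨ρ', hρ', u, hu, rfl⟩ := exists_scale hω hp'
      obtain ⟨τ, hτ⟩ : ∃ τ, τ = ρ⁻¹ * ρ' := ⟨_, rfl⟩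
      have hτ0 : 0 < τ := by rw [hτ]; positivity
      have h1 : q + G q = S ω τ u + G (S ω τ u) := by
        have h2 := congrArg (S ω ρ⁻¹) h
        rw [hΨS ρ hρ, hΨS ρ' hρ', S_inv ω hρ, S_S, ← hτ, ← hΨS τ hτ0] at h2
        exact h2
      have hGq := hGb q hq
      have hn1 : ‖q + G q‖ ≤ 4 / 3 := by
        calc ‖q + G q‖ ≤ ‖q‖ + ‖G q‖ := norm_add_le _ _
          _ ≤ 1 + 1 / 3 := by rw [hq]; linarith
          _ = 4 / 3 := by norm_num
      obtain ⟨i, hi⟩ := hlow u hu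
      have hi' := hi τ hτ0
      rw [← hΨS τ hτ0, ← h1] at hi'
      have hτi : τ ^ ω i ≤ 2 := by linarith
      have hτ2 : τ ≤ 2 := by
        by_cases h3 : τ ≤ 1
        · linarith
        · push Not at h3
          calc τ = τ ^ 1 := (pow_one τ).symm
            _ ≤ τ ^ ω i := pow_le_pow_right₀ h3.le (hω i)
            _ ≤ 2 := hτi
      have hG' : ‖G (S ω τ u)‖ ≤ 2 ^ Ω * ε := by
        rw [hGS τ hτ0, pi_norm_le_iff_of_nonneg (by positivity)]
        intro j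
        rw [norm_S ω hτ0.le]
        refine mul_le_mul ?_ ((norm_le_pi_norm _ j).trans (hGb u hu)) (norm_nonneg _)
          (by positivity)
        calc τ ^ ω j ≤ 2 ^ ω j := pow_le_pow_left₀ hτ0.le hτ2 _
          _ ≤ 2 ^ Ω := pow_le_pow_right₀ (by norm_num) (hΩ j)
      have hd : q - S ω τ u = G (S ω τ u) - G q := by
        have h3 : q = S ω τ u + G (S ω τ u) - G q := by rw [← h1]; abel
        nth_rewrite 1 [h3]
        abel
      have hdist : ‖S ω τ u - q‖ ≤ r := by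
        rw [norm_sub_rev, hd]
        calc ‖G (S ω τ u) - G q‖ ≤ ‖G (S ω τ u)‖ + ‖G q‖ := norm_sub_le _ _
          _ ≤ 2 ^ Ω * ε + ε := add_le_add hG' hGq
          _ = (1 + 2 ^ Ω) * ε := by ring
          _ ≤ r := hεC
      have hL := hGl q hq (S ω τ u) (by rwa [mem_closedBall_iff_norm]) q
        (Metric.mem_closedBall_self hr.le)
      rw [← hd, norm_sub_rev (S ω τ u) q] at hL
      have h4 : ‖q - S ω τ u‖ ≤ 0 := by linarith [norm_nonneg (q - S ω τ u)]
      have h5 : q = S ω τ u := sub_eq_zero.1 (norm_le_zero_iff.1 h4)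
      rw [h5, S_S]
      congr 1
      rw [hτ]
      field_simp
  -- surjectivity
  have hsurj : Function.Surjective (fun p : ι → ℂ => p + G p) := by
    intro w
    by_cases hw : w = 0
    · refine ⟨0, ?_⟩
      simp only
      rw [hG0, add_zero, hw]
    · obtain ⟨ρ, hρ, q, hq, rfl⟩ := exists_scale hω hw
      obtain ⟨x, hx, hfix⟩ := exists_fix (T := fun p => q - G p) (c := q) hr.le (by
        intro p hp
        rw [mem_closedBall_iff_norm] at hp ⊢
        have h1 := hGl q hq p (by rwa [mem_closedBall_iff_norm]) q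
          (Metric.mem_closedBall_self hr.le)
        have h2 : q - G p - q = -(G q) - (G p - G q) := by abel
        rw [h2]
        calc ‖-(G q) - (G p - G q)‖ ≤ ‖-(G q)‖ + ‖G p - G q‖ := norm_sub_le _ _
          _ ≤ ε + 1 / 2 * ‖p - q‖ := by
            rw [norm_neg]
            exact add_le_add (hGb q hq) h1
          _ ≤ r := by linarith) (by
        intro p hp p' hp'
        have h2 : q - G p - (q - G p') = -(G p - G p') := by abel
        rw [h2, norm_neg]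
        exact hGl q hq p hp p' hp')
      refine ⟨S ω ρ x, ?_⟩
      simp only at hfix ⊢
      rw [hΨS ρ hρ]
      congr 1
      nth_rewrite 1 [← hfix]
      abel
  -- continuity of the displacement
  have hcont : Continuous G := by
    rw [continuous_iff_continuousAt]
    intro p
    by_cases hp : p = 0
    · subst hp
      rw [Metric.continuousAt_iff]
      intro η hη
      obtain ⟨m, hm⟩ : ∃ m, m = min 1 η := ⟨_, rfl⟩
      have hm0 : 0 < m := by rw [hm]; exact lt_min one_pos hη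
      refine ⟨m ^ Ω, pow_pos hm0 _, ?_⟩
      intro p hp
      rw [hG0, dist_zero_right]
      rw [dist_zero_right] at hp
      by_cases hp0 : p = 0
      · rw [hp0, hG0, norm_zero]
        exact hη
      · obtain ⟨ρ, hρ, u, hu, rfl⟩ := exists_scale hω hp0
        have hm1 : m ≤ 1 := by rw [hm]; exact min_le_left _ _
        have hmη : m ≤ η := by rw [hm]; exact min_le_right _ _
        have hρ1 : ρ ≤ 1 := by
          apply scale_le hω hΩ hρ hu le_rfl
          exact hp.le.trans (pow_le_one₀ hm0.le hm1)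
        have h1 := scale_pow_le hω hΩ hρ hρ1 hu
        have h2 : ρ < m := lt_of_pow_lt_pow_left₀ Ω hm0.le (lt_of_le_of_lt h1 hp)
        rw [hGS ρ hρ]
        have h3 := norm_S_le' hω hΩ hρ hρ1 (G u)
        have h4 := hGb u hu
        have h5 : ρ * ‖G u‖ ≤ ρ * 1 := mul_le_mul_of_nonneg_left (by linarith) hρ.le
        linarith
    · obtain ⟨ρ, hρ, q, hq, rfl⟩ := exists_scale hω hp
      have h1 : ContinuousAt G q := by
        rw [Metric.continuousAt_iff]
        intro η hη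
        refine ⟨min r η, lt_min hr hη, ?_⟩
        intro x hx
        have h2 := hGl q hq x (by
          rw [Metric.mem_closedBall]
          exact (hx.trans_le (min_le_left _ _)).le) q (Metric.mem_closedBall_self hr.le)
        rw [dist_eq_norm] at hx ⊢
        have h3 := hx.trans_le (min_le_right _ _)
        linarith [norm_nonneg (x - q)]
      have h2 : G = fun x => S ω ρ (G (S ω ρ⁻¹ x)) := by
        funext x
        rw [← hGS ρ hρ, S_inv' ω hρ]
      rw [h2]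
      apply (continuous_S ω ρ).continuousAt.comp
      apply ContinuousAt.comp (g := G)
      · rw [S_inv ω hρ]
        exact h1
      · exact (continuous_S ω ρ⁻¹).continuousAt
  have hΨc : Continuous (fun p : ι → ℂ => p + G p) := continuous_id.add hcont
  -- properness
  have hprop : IsProperMap (fun p : ι → ℂ => p + G p) := by
    rw [isProperMap_iff_tendsto_cocompact]
    refine ⟨hΨc, ?_⟩
    rw [← Metric.cobounded_eq_cocompact, ← tendsto_norm_atTop_iff_cobounded,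
      tendsto_atTop]
    intro M
    obtain ⟨K, hK⟩ : ∃ K, K = max 1 (3 / 2 * M) := ⟨_, rfl⟩
    have hK1 : 1 ≤ K := by rw [hK]; exact le_max_left _ _
    have hKM : 3 / 2 * M ≤ K := by rw [hK]; exact le_max_right _ _
    have h1 : ∀ᶠ p : ι → ℂ in Bornology.cobounded (ι → ℂ), K ^ Ω + 1 ≤ ‖p‖ :=
      tendsto_norm_cobounded_atTop.eventually_ge_atTop _
    filter_upwards [h1] with p hp
    have hp0 : p ≠ 0 := by
      intro h0
      rw [h0, norm_zero] at hp
      have : 0 < K ^ Ω := by positivity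
      linarith
    obtain ⟨ρ, hρ, u, hu, rfl⟩ := exists_scale hω hp0
    have hρ1 : 1 ≤ ρ := by
      by_contra hcon
      push Not at hcon
      have h2 := norm_S_le' hω hΩ hρ hcon.le u
      rw [hu, mul_one] at h2
      have : 0 < K ^ Ω := by positivity
      linarith
    have hρK : K ≤ ρ := by
      have h2 := norm_S_le hω hΩ hρ hρ1 u
      rw [hu, mul_one] at h2
      by_contra hcon
      push Not at hcon
      have h3 : ρ ^ Ω ≤ K ^ Ω := pow_le_pow_left₀ hρ.le hcon.le _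
      linarith
    obtain ⟨i, hi⟩ := hlow u hu
    have hi' := hi ρ hρ
    rw [← hΨS ρ hρ] at hi'
    have h4 : ρ ≤ ρ ^ ω i := by
      calc ρ = ρ ^ 1 := (pow_one ρ).symm
        _ ≤ ρ ^ ω i := pow_le_pow_right₀ hρ1 (hω i)
    linarith
  exact ⟨(Equiv.ofBijective _ ⟨hinj, hsurj⟩).toHomeomorphOfContinuousClosed hΨc
    hprop.isClosedMap, fun p => rfl⟩

end Pool.Agent.Hhelper97.WHTriv
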